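import Pool.Agent.H429R2.GP.LogC
import Pool.Agent.H429R2.GP.Fin

/-!
Gram points: logarithmic derivative of the factor of the functional equation, spacing and count.
-/

open Complex Filter Topology Set Metric MeasureTheory

namespace H429.MG

open H370.DL H429.GP

/-- the factor of the functional equation of the zeta function -/
noncomputable abbrev X1 : ℂ → ℂ := XX (1 : DirichletCharacter ℂ 1)

theorem prim1 : (1 : DirichletCharacter ℂ 1).IsPrimitive :=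
  DirichletCharacter.isPrimitive_one_level_one

theorem logDeriv_X1 : ∃ C : ℝ, 1 ≤ C ∧ ∀ z : ℂ, 0 ≤ z.re → z.re ≤ 1 → 1 ≤ |z.im| →
    ‖logDeriv X1 z + (Real.log |z.im| : ℂ)‖ ≤ C := by
  obtain ⟨C1, hC10, hC1⟩ := logDeriv_Gammaℝ_bound
  refine ⟨2 * C1 + 1, by linarith, ?_⟩
  intro z h0 h1 hy
  have hy0 : z.im ≠ 0 := by
    intro h
    rw [h, abs_zero] at hy
    linarith
  have ha0 := aa_re_nonneg (χ := (1 : DirichletCharacter ℂ 1))
  have ha1 := aa_re_le (χ := (1 : DirichletCharacter ℂ 1))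
  have i1 : |((1 : ℂ) - z + aa (1 : DirichletCharacter ℂ 1)).im| = |z.im| := by
    simp [aa_im]
  have i2 : |(z + aa (1 : DirichletCharacter ℂ 1)).im| = |z.im| := by
    simp [aa_im]
  have b1 := hC1 (1 - z + aa (1 : DirichletCharacter ℂ 1))
    (by rw [add_re, sub_re, one_re]; linarith)
    (by rw [add_re, sub_re, one_re]; linarith) (by rw [i1]; exact hy)
  have b2 := hC1 (z + aa (1 : DirichletCharacter ℂ 1)) (by rw [add_re]; linarith)
    (by rw [add_re]; linarith) (by rw [i2]; exact hy)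
  rw [i1] at b1
  rw [i2] at b2
  rw [logDeriv_XX prim1 hy0]
  have e : -(Real.log ((1 : ℕ) : ℝ) : ℂ) - logDeriv Gammaℝ (1 - z + aa (1 : DirichletCharacter ℂ 1)) -
      logDeriv Gammaℝ (z + aa (1 : DirichletCharacter ℂ 1)) + (Real.log |z.im| : ℂ) =
      -(logDeriv Gammaℝ (1 - z + aa (1 : DirichletCharacter ℂ 1)) - 1 / 2 * Real.log |z.im|) -
      (logDeriv Gammaℝ (z + aa (1 : DirichletCharacter ℂ 1)) - 1 / 2 * Real.log |z.im|) := by
    rw [Nat.cast_one, Real.log_one, ofReal_zero]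
    ring
  rw [e]
  refine (norm_sub_le _ _).trans ?_
  rw [norm_neg]
  linarith

theorem hasDerivAt_X1 {y : ℝ} (hy : y ≠ 0) :
    HasDerivAt (fun y : ℝ => X1 ⟨1 / 2, y⟩)
      (X1 ⟨1 / 2, y⟩ * logDeriv X1 ⟨1 / 2, y⟩ * I) y := by
  have ha : AnalyticAt ℂ X1 ⟨1 / 2, y⟩ := analyticAt_XX hy
  have h2 : HasDerivAt (fun y : ℝ => (⟨1 / 2, y⟩ : ℂ)) I y := by
    have e : (fun y : ℝ => (⟨1 / 2, y⟩ : ℂ)) = fun y : ℝ => 1 / 2 + (y : ℂ) * I := by
      funext y
      apply Complex.ext <;> simp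
    rw [e]
    have h3 := ((ofRealCLM.hasDerivAt (x := y)).mul_const I).const_add (1 / 2)
    simpa using h3
  have h3 := HasDerivAt.comp y ha.differentiableAt.hasDerivAt h2
  have hne := XX_ne_zero prim1 (s := ⟨1 / 2, y⟩) hy
  have h4 : deriv X1 ⟨1 / 2, y⟩ * I = X1 ⟨1 / 2, y⟩ * logDeriv X1 ⟨1 / 2, y⟩ * I := by
    rw [logDeriv_apply]
    congr 1
    exact (mul_div_cancel₀ _ hne).symm
  rw [h4] at h3
  exact h3

theorem im_logDeriv_X1 {y : ℝ} (hy : y ≠ 0) : (logDeriv X1 ⟨1 / 2, y⟩).im = 0 := by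
  have h1 := (hasDerivAt_X1 hy).norm_sq
  have h2 : (fun y : ℝ => ‖X1 ⟨1 / 2, y⟩‖ ^ 2) = fun _ => (1 : ℝ) := by
    funext y
    rw [norm_XX_line prim1, one_pow]
  rw [h2] at h1
  have h3 := h1.unique (hasDerivAt_const y (1 : ℝ))
  have h4 : @inner ℝ ℂ _ (X1 ⟨1 / 2, y⟩) (X1 ⟨1 / 2, y⟩ * logDeriv X1 ⟨1 / 2, y⟩ * I) =
      -(logDeriv X1 ⟨1 / 2, y⟩).im := by
    rw [Complex.inner]
    have : (X1 ⟨1 / 2, y⟩ * logDeriv X1 ⟨1 / 2, y⟩ * I) * (starRingEnd ℂ) (X1 ⟨1 / 2, y⟩) =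
        ((‖X1 ⟨1 / 2, y⟩‖ ^ 2 : ℝ) : ℂ) * (logDeriv X1 ⟨1 / 2, y⟩ * I) := by
      rw [← normSq_eq_norm_sq, ← mul_conj]
      ring
    rw [this, re_ofReal_mul, norm_XX_line prim1, one_pow, one_mul, mul_I_re]
  rw [h4] at h3
  linarith

/-- spacing of the Gram points -/
theorem spacing : ∃ c : ℝ, 0 < c ∧ ∃ Y0 : ℝ, 1 ≤ Y0 ∧ ∀ ω : ℂ, ‖ω‖ = 1 → ∀ g1 g2 : ℝ, Y0 ≤ g1 →
    g1 < g2 → X1 ⟨1 / 2, g1⟩ = ω ^ 2 → X1 ⟨1 / 2, g2⟩ = ω ^ 2 →
    c / (1 + Real.log (1 + g2)) ≤ g2 - g1 := by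
  obtain ⟨C, hC1, hC⟩ := logDeriv_X1
  refine ⟨1 / (2 * C), by positivity, Real.exp (C + 1), ?_, ?_⟩
  · linarith [Real.add_one_le_exp (C + 1)]
  intro ω hω g1 g2 hg1 hlt h1 h2
  have hexp1 : 1 ≤ Real.exp (C + 1) := by linarith [Real.add_one_le_exp (C + 1)]
  have hg10 : 0 < g1 := by linarith
  have hω0 : ω ≠ 0 := by
    intro h
    rw [h, norm_zero] at hω
    linarith
  set B : ℝ := C * (1 + Real.log (1 + g2)) with hB
  have hl2 : 0 ≤ Real.log (1 + g2) := Real.log_nonneg (by linarith)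
  have hB0 : 0 < B := by positivity
  by_contra hcon
  push Not at hcon
  have hcon' : g2 - g1 < 1 / (2 * B) := by
    refine lt_of_lt_of_eq hcon ?_
    rw [hB]
    field_simp
  have hL : ∀ y : ℝ, g1 ≤ y → y ≤ g2 → ‖logDeriv X1 ⟨1 / 2, y⟩‖ ≤ B ∧
      (logDeriv X1 ⟨1 / 2, y⟩).re ≤ -1 := by
    intro y hy1 hy2
    have hy0 : 0 < y := by linarith
    have hay : |y| = y := abs_of_pos hy0
    have h3 := hC ⟨1 / 2, y⟩ (by norm_num) (by norm_num) (by simp only; rw [hay]; linarith)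
    simp only [hay] at h3
    have hlog : 0 ≤ Real.log y := Real.log_nonneg (by linarith)
    constructor
    · have h4 : ‖logDeriv X1 ⟨1 / 2, y⟩‖ ≤ ‖logDeriv X1 ⟨1 / 2, y⟩ + (Real.log y : ℂ)‖ +
          ‖(Real.log y : ℂ)‖ := by
        have := norm_sub_le (logDeriv X1 ⟨1 / 2, y⟩ + (Real.log y : ℂ)) (Real.log y : ℂ)
        simpa using this
      rw [norm_real, Real.norm_eq_abs, abs_of_nonneg hlog] at h4
      have h5 : Real.log y ≤ Real.log (1 + g2) := Real.log_le_log hy0 (by linarith)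
      have h6 : C * Real.log (1 + g2) ≥ Real.log (1 + g2) := by nlinarith
      rw [hB]
      linarith
    · have h4 := (abs_le.mp ((abs_re_le_norm _).trans h3)).2
      rw [add_re, ofReal_re] at h4
      have h5 : C + 1 ≤ Real.log y := by
        rw [Real.le_log_iff_exp_le hy0]
        linarith
      linarith
  set F : ℝ → ℂ := fun y => X1 ⟨1 / 2, y⟩ / ω ^ 2 with hF
  have hFd : ∀ y : ℝ, g1 ≤ y → HasDerivAt F (F y * logDeriv X1 ⟨1 / 2, y⟩ * I) y := by
    intro y hy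
    have h3 := (hasDerivAt_X1 (y := y) (by linarith : y ≠ 0)).div_const (ω ^ 2)
    have e : X1 ⟨1 / 2, y⟩ * logDeriv X1 ⟨1 / 2, y⟩ * I / ω ^ 2 =
        F y * logDeriv X1 ⟨1 / 2, y⟩ * I := by
      rw [hF]
      ring
    rw [e] at h3
    exact h3
  have hFn : ∀ y : ℝ, ‖F y‖ = 1 := by
    intro y
    rw [hF]
    simp only
    rw [norm_div, norm_XX_line prim1, norm_pow, hω, one_pow, div_one]
  have hF1 : F g1 = 1 := by
    rw [hF]
    simp only
    rw [h1]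
    exact div_self (pow_ne_zero 2 hω0)
  have hF2 : F g2 = 1 := by
    rw [hF]
    simp only
    rw [h2]
    exact div_self (pow_ne_zero 2 hω0)
  have hclose : ∀ y ∈ Icc g1 g2, ‖F y - F g1‖ ≤ B * (y - g1) := by
    intro y hy
    have := (convex_Icc g1 g2).norm_image_sub_le_of_norm_hasDerivWithin_le (f := F)
      (f' := fun y => F y * logDeriv X1 ⟨1 / 2, y⟩ * I) (C := B) (x := g1) (y := y)
      (fun x hx => (hFd x hx.1).hasDerivWithinAt)
      (fun x hx => by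
        rw [norm_mul, norm_mul, norm_I, mul_one, hFn, one_mul]
        exact (hL x hx.1 hx.2).1)
      (left_mem_Icc.mpr hlt.le) hy
    rwa [Real.norm_eq_abs, abs_of_nonneg (by linarith [hy.1])] at this
  obtain ⟨c, hc, hc0⟩ := exists_hasDerivAt_eq_zero (f := fun y => (F y).im)
    (f' := fun y => (F y * logDeriv X1 ⟨1 / 2, y⟩ * I).im) hlt
    (fun y hy => by
      have h3 := (hFd y hy.1).continuousAt
      exact (continuous_im.continuousAt.comp h3).continuousWithinAt)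
    (by rw [hF1, hF2])
    (fun y hy => by
      have h3 := hFd y hy.1.le
      exact (imCLM.hasFDerivAt.comp_hasDerivAt y h3))
  have h3 := hclose c ⟨hc.1.le, hc.2.le⟩
  rw [hF1] at h3
  have h4 : B * (c - g1) ≤ 1 / 2 := by
    have h5 : c - g1 ≤ 1 / (2 * B) := by linarith [hc.2]
    calc B * (c - g1) ≤ B * (1 / (2 * B)) := by gcongr
      _ = 1 / 2 := by field_simp
  have h5 := (abs_le.mp ((abs_re_le_norm _).trans (h3.trans h4))).1
  rw [sub_re, one_re] at h5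
  have him := im_logDeriv_X1 (y := c) (by linarith [hc.1])
  have h6 : (F c * logDeriv X1 ⟨1 / 2, c⟩ * I).im = (F c).re * (logDeriv X1 ⟨1 / 2, c⟩).re := by
    rw [mul_I_im, mul_re, him, mul_zero, sub_zero]
  rw [h6] at hc0
  have h7 := (hL c hc.1.le hc.2.le).2
  nlinarith

end H429.MG
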