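import Pool.Agent.H429R4.MG.F1

/-!
Gram points: finiteness and count.
-/

open Complex Filter Topology Set Metric MeasureTheory

namespace H429.MG

open H370.DL H429.GP

theorem card_le_of_sep {a b δ : ℝ} (hδ : 0 < δ) (hab : a ≤ b) {S : Finset ℝ}
    (hS : ∀ x ∈ S, a ≤ x ∧ x ≤ b) (hsep : ∀ x ∈ S, ∀ y ∈ S, x < y → δ ≤ y - x) :
    (S.card : ℝ) ≤ (b - a) / δ + 1 := by
  have hb0 : 0 ≤ (b - a) / δ := div_nonneg (by linarith) hδ.le
  have hmaps : ∀ x ∈ S, ⌊(x - a) / δ⌋₊ ∈ Finset.range (⌊(b - a) / δ⌋₊ + 1) := by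
    intro x hx
    rw [Finset.mem_range, Nat.lt_add_one_iff]
    apply Nat.floor_le_floor
    apply div_le_div_of_nonneg_right _ hδ.le
    linarith [(hS x hx).2]
  have hlt : ∀ x ∈ S, ∀ y ∈ S, x < y → ⌊(x - a) / δ⌋₊ < ⌊(y - a) / δ⌋₊ := by
    intro x hx y hy hxy
    have h1 := hsep x hx y hy hxy
    have h2 : (x - a) / δ + 1 ≤ (y - a) / δ := by
      rw [div_add_one hδ.ne']
      apply div_le_div_of_nonneg_right _ hδ.le
      linarith
    have h3 : 0 ≤ (x - a) / δ := div_nonneg (by linarith [(hS x hx).1]) hδ.le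
    have h4 : ⌊(x - a) / δ⌋₊ + 1 ≤ ⌊(y - a) / δ⌋₊ := by
      rw [Nat.le_floor_iff (by linarith)]
      push_cast
      linarith [Nat.floor_le h3]
    omega
  have hinj : Set.InjOn (fun x : ℝ => ⌊(x - a) / δ⌋₊) S := by
    intro x hx y hy hxy
    rcases lt_trichotomy x y with h | h | h
    · exact absurd hxy (hlt x hx y hy h).ne
    · exact h
    · exact absurd hxy (hlt y hy x hx h).ne'
  have h1 := Finset.card_le_card_of_injOn _ hmaps hinj
  rw [Finset.card_range] at h1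
  have h2 : (S.card : ℝ) ≤ (⌊(b - a) / δ⌋₊ : ℝ) + 1 := by exact_mod_cast h1
  linarith [Nat.floor_le hb0]

theorem count : ∃ C : ℝ, 0 < C ∧ ∃ Y0 : ℝ, 1 ≤ Y0 ∧ ∀ ω : ℂ, ‖ω‖ = 1 → ∀ a b : ℝ, Y0 ≤ a →
    a ≤ b → ∀ S : Finset ℝ, (∀ g ∈ S, a ≤ g ∧ g ≤ b ∧ X1 ⟨1 / 2, g⟩ = ω ^ 2) →
    (S.card : ℝ) ≤ C * (1 + Real.log (1 + b)) * (b - a + 1) := by
  obtain ⟨c, hc, Y0, hY0, h⟩ := spacing
  refine ⟨1 / c + 1, by positivity, Y0, hY0, ?_⟩
  intro ω hω a b ha hab S hS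
  set L : ℝ := 1 + Real.log (1 + b) with hL
  have hL1 : 1 ≤ L := by
    have : 0 ≤ Real.log (1 + b) := Real.log_nonneg (by linarith)
    linarith
  have h1 := card_le_of_sep (a := a) (b := b) (δ := c / L) (by positivity) hab (S := S)
    (fun x hx => ⟨(hS x hx).1, (hS x hx).2.1⟩) (by
      intro x hx y hy hxy
      obtain ⟨x1, x2, x3⟩ := hS x hx
      obtain ⟨y1, y2, y3⟩ := hS y hy
      refine le_trans ?_ (h ω hω x y (by linarith) hxy x3 y3)
      apply div_le_div_of_nonneg_left hc.le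
      · have : 0 ≤ Real.log (1 + y) := Real.log_nonneg (by linarith)
        linarith
      · have : Real.log (1 + y) ≤ Real.log (1 + b) := Real.log_le_log (by linarith) (by linarith)
        linarith)
  refine h1.trans ?_
  have h2 : (b - a) / (c / L) = 1 / c * L * (b - a) := by field_simp
  rw [h2]
  have h3 : 0 ≤ b - a := by linarith
  have h4 : 0 < 1 / c := by positivity
  have h5 : 0 ≤ L * (b - a) := by positivity
  have h6 : 0 ≤ 1 / c * L := by positivity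
  nlinarith

theorem finite_gram {ω : ℂ} (hω : ‖ω‖ = 1) (a b : ℝ) :
    {g : ℝ | a ≤ g ∧ g ≤ b ∧ X1 ⟨1 / 2, g⟩ = ω ^ 2}.Finite := by
  by_contra hinf
  have hinf' : {g : ℝ | a ≤ g ∧ g ≤ b ∧ X1 ⟨1 / 2, g⟩ = ω ^ 2}.Infinite := hinf
  set Ω : Set ℂ := {z | 0 < z.re ∧ z.re < 1} with hΩ
  have hpre : IsPreconnected Ω := by
    have h1 : Convex ℝ Ω := by
      have h2 : Ω = {z : ℂ | 0 < z.re} ∩ {z : ℂ | z.re < 1} := rfl
      rw [h2]
      exact (convex_halfSpace_re_gt 0).inter (convex_halfSpace_re_lt 1)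
    exact h1.isPreconnected
  have han : AnalyticOnNhd ℂ X1 Ω := fun z hz => analyticAt_XX' hz.1 hz.2
  set K : Set ℂ := (fun y : ℝ => (⟨1 / 2, y⟩ : ℂ)) '' Icc a b with hK
  have hKc : IsCompact K := isCompact_Icc.image (continuous_mk (1 / 2))
  set s : Set ℂ := (fun y : ℝ => (⟨1 / 2, y⟩ : ℂ)) '' {g : ℝ | a ≤ g ∧ g ≤ b ∧ X1 ⟨1 / 2, g⟩ = ω ^ 2}
    with hs
  have hsK : s ⊆ K := by
    apply image_mono
    intro g hg
    exact ⟨hg.1, hg.2.1⟩
  have hsinf : s.Infinite := by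
    apply hinf'.image
    intro x _ y _ hxy
    exact congrArg im hxy
  obtain ⟨z1, hz1K, hz1⟩ := hsinf.exists_accPt_of_subset_isCompact hKc hsK
  rw [accPt_iff_frequently_nhdsNE] at hz1
  have hfreq : ∃ᶠ z in 𝓝[≠] z1, X1 z = (fun _ => ω ^ 2) z := by
    refine hz1.mono ?_
    rintro z ⟨g, hg, rfl⟩
    exact hg.2.2
  have hz1Ω : z1 ∈ Ω := by
    obtain ⟨y, -, rfl⟩ := hz1K
    exact ⟨by norm_num, by norm_num⟩
  have heq := han.eqOn_of_preconnected_of_frequently_eq (g := fun _ => ω ^ 2)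
    (fun z _ => analyticAt_const) hpre hz1Ω hfreq
  obtain ⟨C, hC0, hC⟩ := XX_decay1
  set Q : ℝ := Real.exp (C + 1) with hQ
  have hQ0 : 0 < Q := Real.exp_pos _
  have hQ1 : 1 ≤ Q := by
    rw [hQ]
    linarith [Real.add_one_le_exp (C + 1)]
  have h1 := heq (x := ⟨1 / 2 + 1 / 4, Q⟩) ⟨by norm_num, by norm_num⟩
  have h2 := hC 1 (1 : DirichletCharacter ℂ 1) prim1 (1 / 4) Q (by norm_num) (by norm_num)
    (by rw [abs_of_pos hQ0]; exact hQ1)
  have h1' : XX (1 : DirichletCharacter ℂ 1) ⟨1 / 2 + 1 / 4, Q⟩ = ω ^ 2 := h1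
  rw [h1', norm_pow, hω, one_pow] at h2
  have h3 : C + 1 ≤ Real.log (((1 : ℕ) : ℝ) * (1 + |Q|)) := by
    rw [Real.le_log_iff_exp_le (by positivity)]
    rw [abs_of_pos hQ0, Nat.cast_one]
    linarith
  have h4 : Real.exp (-(1 / 4) * (Real.log (((1 : ℕ) : ℝ) * (1 + |Q|)) - C)) < 1 := by
    rw [Real.exp_lt_one_iff]
    generalize Real.log (((1 : ℕ) : ℝ) * (1 + |Q|)) = L at h3
    linarith
  linarith

end H429.MG
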