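import Pool.Agent.H429R4.MG.F1

/-!
Local comparison of values of the zeta function on and near the critical line.
-/

open Complex Filter Topology Set Metric MeasureTheory

namespace H429.MG

open H370.DL H429.GP

/-- the zeta function as the L-function of the trivial character -/
noncomputable abbrev LL : ℂ → ℂ := DirichletCharacter.LFunction (1 : DirichletCharacter ℂ 1)

noncomputable def V (t : ℝ) : ℝ := ‖LL ⟨1 / 2, t⟩‖

theorem V_nonneg (t : ℝ) : 0 ≤ V t := norm_nonneg _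

theorem line_ne_one (y : ℝ) : (⟨1 / 2, y⟩ : ℂ) ≠ 1 := by
  intro h
  have := congrArg re h
  norm_num at this

theorem continuous_V : Continuous V := by
  unfold V
  apply Continuous.norm
  rw [continuous_iff_continuousAt]
  intro y
  exact ContinuousAt.comp (g := LL)
    (f := fun y : ℝ => (⟨1 / 2, y⟩ : ℂ)) (analyticAt_L (line_ne_one y)).continuousAt
    (continuous_mk (1 / 2)).continuousAt

theorem V_growth (y : ℝ) : V y ≤ 11 * (1 + |y|) := by
  have h := growth prim1 (η := 1 / 2) (by norm_num) (s := ⟨1 / 2, y⟩) (by norm_num) (by norm_num)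
  unfold V
  refine h.trans (le_of_eq ?_)
  push_cast
  ring

theorem right_sup : ∃ K : ℝ, 1 ≤ K ∧ ∀ t1 V1 : ℝ, 1 ≤ V1 →
    (∀ y : ℝ, V y ≤ V1 * Real.exp |y - t1|) → ∀ σ t0 : ℝ, 1 / 2 ≤ σ → σ ≤ 3 / 2 → |t0 - t1| ≤ 1 →
    1 ≤ |t0| → ‖LL ⟨σ, t0⟩‖ ≤ K * V1 := by
  obtain ⟨h, e, he, hd, hL, hb⟩ := exists_reg prim1
  set Z : ℝ := ∑' n : ℕ, 1 / (n : ℝ) ^ (1 + 1 / 2 : ℝ) with hZ
  have hZ0 : 0 ≤ Z := tsum_nonneg fun n => by positivity
  refine ⟨Real.exp 1 * (Real.exp 2 + 2 + (Z + 2)) + 1, ?_, ?_⟩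
  · have : 0 ≤ Real.exp 1 * (Real.exp 2 + 2 + (Z + 2)) := by positivity
    linarith
  intro t1 V1 hV1 hV σ t0 h1 h2 h3 h4
  have hV10 : 0 < V1 := by linarith
  have hM : ∀ z : ℂ, 1 / 2 ≤ z.re → z.re ≤ 3 / 2 → ‖h z‖ ≤ 7 * (1 + |z.im|) := by
    intro z h1 h2
    have hz : 0 < z.re := by linarith
    have h3 := hb z hz
    have h4 : ‖z‖ ≤ 3 / 2 + |z.im| := by
      refine (norm_le_abs_re_add_abs_im z).trans ?_
      rw [abs_of_pos hz]
      linarith
    have h5 : (((1 : ℕ) : ℝ) + 1) / z.re ≤ 4 := by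
      rw [div_le_iff₀ hz]
      push_cast
      linarith
    have h6 : ‖z‖ * ((((1 : ℕ) : ℝ) + 1) / z.re) ≤ (3 / 2 + |z.im|) * 4 :=
      mul_le_mul h4 h5 (by positivity) (by positivity)
    linarith [abs_nonneg z.im]
  have hexp : ∀ y : ℝ, 1 ≤ Real.exp ((y - t0) ^ 2) := fun y => Real.one_le_exp (sq_nonneg _)
  have hleft : ∀ y : ℝ, ‖h ⟨1 / 2, y⟩‖ ≤ ((Real.exp 2 + 2) * V1) * Real.exp ((y - t0) ^ 2) := by
    intro y
    have h1 : LL ⟨1 / 2, y⟩ = h ⟨1 / 2, y⟩ + e * (1 / ((⟨1 / 2, y⟩ : ℂ) - 1)) :=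
      hL ⟨1 / 2, y⟩ (by norm_num) (line_ne_one y)
    have h2 : h ⟨1 / 2, y⟩ = LL ⟨1 / 2, y⟩ - e * (1 / ((⟨1 / 2, y⟩ : ℂ) - 1)) := by
      rw [h1]; ring
    rw [h2]
    have h7 : ‖e * (1 / ((⟨1 / 2, y⟩ : ℂ) - 1))‖ ≤ 2 := by
      rcases he with he | he
      · rw [he, zero_mul, norm_zero]; norm_num
      · rw [he, one_mul, norm_div, norm_one]
        have := abs_re_le_norm ((⟨1 / 2, y⟩ : ℂ) - 1)
        rw [sub_re, one_re] at this
        norm_num at this
        rw [div_le_iff₀ (by linarith)]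
        linarith
    have h8 : V y ≤ (Real.exp 2 * V1) * Real.exp ((y - t0) ^ 2) := by
      refine (hV y).trans ?_
      have h9 : |y - t1| ≤ 2 + (y - t0) ^ 2 := by
        have : |y - t1| ≤ |y - t0| + |t0 - t1| := abs_sub_le _ _ _
        have h10 : |y - t0| ≤ 1 + (y - t0) ^ 2 := by
          rw [← sq_abs (y - t0)]
          nlinarith [sq_nonneg (|y - t0| - 1 / 2)]
        linarith
      calc V1 * Real.exp |y - t1| ≤ V1 * Real.exp (2 + (y - t0) ^ 2) := by gcongr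
        _ = _ := by rw [Real.exp_add]; ring
    calc _ ≤ V y + 2 := (norm_sub_le _ _).trans (add_le_add le_rfl h7)
      _ ≤ (Real.exp 2 * V1) * Real.exp ((y - t0) ^ 2) + (2 * V1) * Real.exp ((y - t0) ^ 2) := by
        apply add_le_add h8
        have := hexp y
        nlinarith
      _ = _ := by ring
  have hright : ∀ y : ℝ, ‖h ⟨3 / 2, y⟩‖ ≤ ((Z + 2) * V1) * Real.exp ((y - t0) ^ 2) := by
    intro y
    have hne : (⟨3 / 2, y⟩ : ℂ) ≠ 1 := by
      intro h
      have := congrArg re h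
      norm_num at this
    have h1 : LL ⟨3 / 2, y⟩ = h ⟨3 / 2, y⟩ + e * (1 / ((⟨3 / 2, y⟩ : ℂ) - 1)) :=
      hL ⟨3 / 2, y⟩ (by norm_num) hne
    have h2 : h ⟨3 / 2, y⟩ = LL ⟨3 / 2, y⟩ - e * (1 / ((⟨3 / 2, y⟩ : ℂ) - 1)) := by
      rw [h1]; ring
    rw [h2]
    have h3 := norm_L_right (χ := (1 : DirichletCharacter ℂ 1)) (η := 1 / 2) (by norm_num)
      (s := ⟨3 / 2, y⟩) (by norm_num)
    have h7 : ‖e * (1 / ((⟨3 / 2, y⟩ : ℂ) - 1))‖ ≤ 2 := by
      rcases he with he | he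
      · rw [he, zero_mul, norm_zero]; norm_num
      · rw [he, one_mul, norm_div, norm_one]
        have := abs_re_le_norm ((⟨3 / 2, y⟩ : ℂ) - 1)
        rw [sub_re, one_re] at this
        norm_num at this
        rw [div_le_iff₀ (by linarith)]
        linarith
    calc _ ≤ Z + 2 := (norm_sub_le _ _).trans (add_le_add h3 h7)
      _ ≤ (Z + 2) * V1 := by nlinarith
      _ ≤ _ := by
        have h8 : 0 ≤ (Z + 2) * V1 := by positivity
        have := hexp y
        nlinarith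
  have hdc : DiffContOnCl ℂ h {z | (1 / 2 : ℝ) < z.re ∧ z.re < 3 / 2} := by
    have hcl : closure {z : ℂ | (1 / 2 : ℝ) < z.re ∧ z.re < 3 / 2} ⊆ {z | 0 < z.re} := by
      have h5 : {z : ℂ | (1 / 2 : ℝ) < z.re ∧ z.re < 3 / 2} = re ⁻¹' (Ioo (1 / 2) (3 / 2)) := rfl
      rw [h5, closure_preimage_re, closure_Ioo (by norm_num)]
      intro z hz
      have : (1 / 2 : ℝ) ≤ z.re := hz.1
      change 0 < z.re
      linarith
    exact (hd.mono hcl).diffContOnCl
  have htl := three_lines (a := 1 / 2) (b := 3 / 2) (σ0 := σ) (t0 := t0)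
    (lam := 0) (by norm_num) h1 h2 hdc hM hleft hright
  have hmain : ‖h ⟨σ, t0⟩‖ ≤ Real.exp 1 * (Real.exp 2 + 2 + (Z + 2)) * V1 := by
    refine htl.trans ?_
    have e1 : ((3 : ℝ) / 2 - 1 / 2) ^ 2 = 1 := by norm_num
    rw [e1, zero_mul, zero_mul, Real.exp_zero, mul_one, mul_one, mul_assoc]
    apply mul_le_mul_of_nonneg_left _ (by positivity)
    apply max_le
    · have : 0 ≤ (Z + 2) * V1 := by positivity
      linarith
    · have : 0 ≤ (Real.exp 2 + 2) * V1 := by positivity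
      linarith
  have hne : (⟨σ, t0⟩ : ℂ) ≠ 1 := by
    intro h
    have := congrArg im h
    simp at this
    rw [this, abs_zero] at h4
    linarith
  have h5 : LL ⟨σ, t0⟩ = _ := hL ⟨σ, t0⟩ (by simp only; linarith) hne
  rw [h5]
  have h7 : ‖e * (1 / ((⟨σ, t0⟩ : ℂ) - 1))‖ ≤ 1 := by
    rcases he with he | he
    · rw [he, zero_mul, norm_zero]; norm_num
    · rw [he, one_mul, norm_div, norm_one]
      have := abs_im_le_norm ((⟨σ, t0⟩ : ℂ) - 1)
      rw [sub_im, one_im, sub_zero] at this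
      have h8 : 1 ≤ ‖(⟨σ, t0⟩ : ℂ) - 1‖ := h4.trans this
      rw [div_le_iff₀ (by linarith)]
      linarith
  calc _ ≤ ‖h ⟨σ, t0⟩‖ + ‖e * (1 / ((⟨σ, t0⟩ : ℂ) - 1))‖ := norm_add_le _ _
    _ ≤ Real.exp 1 * (Real.exp 2 + 2 + (Z + 2)) * V1 + 1 * V1 := by
      apply add_le_add hmain
      linarith
    _ = _ := by ring

theorem X1_left : ∃ C : ℝ, 1 ≤ C ∧ ∀ x y : ℝ, 0 ≤ x → x ≤ 1 / 2 → 1 ≤ y →
    ‖X1 ⟨1 / 2 - x, y⟩‖ ≤ Real.exp ((C + Real.log y) * x) := by
  obtain ⟨C, hC1, hC⟩ := logDeriv_X1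
  refine ⟨C, hC1, ?_⟩
  intro x y hx0 hx1 hy
  have hy0 : y ≠ 0 := by linarith
  have hyp : 0 < y := by linarith
  have hlog : 0 ≤ Real.log y := Real.log_nonneg hy
  set φ : ℝ → ℂ := fun x => X1 ⟨1 / 2 - x, y⟩ with hφ
  have hder : ∀ x : ℝ, HasDerivAt φ (-(φ x * logDeriv X1 ⟨1 / 2 - x, y⟩)) x := by
    intro x
    have ha : AnalyticAt ℂ X1 ⟨1 / 2 - x, y⟩ := analyticAt_XX hy0
    have h2 : HasDerivAt (fun x : ℝ => (⟨1 / 2 - x, y⟩ : ℂ)) (-1) x := by
      have e : (fun x : ℝ => (⟨1 / 2 - x, y⟩ : ℂ)) = fun x : ℝ => (1 / 2 + y * I) - (x : ℂ) := by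
        funext x
        apply Complex.ext <;> simp
      rw [e]
      exact (ofRealCLM.hasDerivAt (x := x)).const_sub _
    have h3 := HasDerivAt.comp x ha.differentiableAt.hasDerivAt h2
    have hne := XX_ne_zero prim1 (s := ⟨1 / 2 - x, y⟩) hy0
    have h4 : deriv X1 ⟨1 / 2 - x, y⟩ * (-1) = -(φ x * logDeriv X1 ⟨1 / 2 - x, y⟩) := by
      rw [logDeriv_apply, mul_neg, mul_one]
      congr 1
      exact (mul_div_cancel₀ _ hne).symm
    rw [h4] at h3
    exact h3
  have hg := norm_le_gronwallBound_of_norm_deriv_right_le (f := φ)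
    (f' := fun x => -(φ x * logDeriv X1 ⟨1 / 2 - x, y⟩)) (δ := 1) (K := C + Real.log y) (ε := 0)
    (a := 0) (b := 1 / 2) (fun x _ => (hder x).continuousAt.continuousWithinAt)
    (fun x _ => (hder x).hasDerivWithinAt)
    (by rw [hφ]; simp only [sub_zero]; rw [norm_XX_line prim1])
    (fun x hx => by
      rw [norm_neg, norm_mul, add_zero, mul_comm]
      apply mul_le_mul_of_nonneg_right _ (norm_nonneg _)
      have h3 := hC ⟨1 / 2 - x, y⟩ (by simp only; linarith [hx.2]) (by simp only; linarith [hx.1])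
        (by simp only; rw [abs_of_pos hyp]; exact hy)
      simp only [abs_of_pos hyp] at h3
      have h4 : ‖logDeriv X1 ⟨1 / 2 - x, y⟩‖ ≤ ‖logDeriv X1 ⟨1 / 2 - x, y⟩ + (Real.log y : ℂ)‖ +
          ‖(Real.log y : ℂ)‖ := by
        have := norm_sub_le (logDeriv X1 ⟨1 / 2 - x, y⟩ + (Real.log y : ℂ)) (Real.log y : ℂ)
        simpa using this
      rw [norm_real, Real.norm_eq_abs, abs_of_nonneg hlog] at h4
      linarith) x ⟨hx0, hx1⟩
  rw [gronwallBound_ε0, sub_zero, one_mul] at hg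
  exact hg

theorem norm_left_eq {x y : ℝ} (hy : y ≠ 0) :
    ‖LL ⟨1 / 2 - x, y⟩‖ = ‖X1 ⟨1 / 2 - x, y⟩‖ * ‖LL ⟨1 / 2 + x, y⟩‖ := by
  have h := func_eq prim1 (s := ⟨1 / 2 - x, y⟩) hy
  have h2 : (1 : ℂ) - (starRingEnd ℂ) ⟨1 / 2 - x, y⟩ = ⟨1 / 2 + x, y⟩ := by
    apply Complex.ext <;> simp
    ring
  rw [H370.DL.refl, h2] at h
  have h3 : LL ⟨1 / 2 - x, y⟩ = _ := h
  rw [h3, norm_mul, RCLike.norm_conj]

theorem disc_sup : ∃ K : ℝ, 1 ≤ K ∧ ∀ t1 V1 : ℝ, 1 ≤ V1 →
    (∀ y : ℝ, V y ≤ V1 * Real.exp |y - t1|) → 2 ≤ t1 → ∀ z : ℂ,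
    |z.re - 1 / 2| ≤ 1 / (2 * (1 + Real.log (1 + t1))) → |z.im - t1| ≤ 1 → ‖LL z‖ ≤ K * V1 := by
  obtain ⟨K, hK1, hK⟩ := right_sup
  obtain ⟨C, hC1, hC⟩ := X1_left
  refine ⟨Real.exp (C + 1) * K, ?_, ?_⟩
  · have := Real.add_one_le_exp (C + 1)
    nlinarith
  intro t1 V1 hV1 hV ht1 z hz1 hz2
  have hl : 0 ≤ Real.log (1 + t1) := Real.log_nonneg (by linarith)
  have hr : 1 / (2 * (1 + Real.log (1 + t1))) ≤ 1 / 2 := by
    apply one_div_le_one_div_of_le (by norm_num)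
    linarith
  obtain ⟨x1, x2⟩ := abs_le.mp hz1
  obtain ⟨y1, y2⟩ := abs_le.mp hz2
  have him1 : 1 ≤ z.im := by linarith
  have habs : 1 ≤ |z.im| := him1.trans (le_abs_self _)
  have hE : 1 ≤ Real.exp (C + 1) := by linarith [Real.add_one_le_exp (C + 1)]
  rcases le_total (1 / 2) z.re with hre | hre
  · have h := hK t1 V1 hV1 hV z.re z.im hre (by linarith) hz2 habs
    refine h.trans ?_
    have : 0 ≤ K * V1 := by positivity
    nlinarith
  · set x : ℝ := 1 / 2 - z.re with hx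
    have hx0 : 0 ≤ x := by linarith
    have e : z = ⟨1 / 2 - x, z.im⟩ := by
      apply Complex.ext
      · simp [hx]
      · simp
    rw [e, norm_left_eq (by linarith : z.im ≠ 0)]
    have h1 := hK t1 V1 hV1 hV (1 / 2 + x) z.im (by linarith) (by linarith) hz2 habs
    have h2 := hC x z.im hx0 (by linarith) him1
    have h3 : (C + Real.log z.im) * x ≤ C + 1 := by
      have h4 : Real.log z.im ≤ Real.log (1 + t1) := Real.log_le_log (by linarith) (by linarith)
      have h5 : x ≤ 1 / (2 * (1 + Real.log (1 + t1))) := by linarith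
      have h6 : (1 + Real.log (1 + t1)) * x ≤ 1 := by
        calc (1 + Real.log (1 + t1)) * x
            ≤ (1 + Real.log (1 + t1)) * (1 / (2 * (1 + Real.log (1 + t1)))) := by gcongr
          _ = 1 / 2 := by field_simp
          _ ≤ 1 := by norm_num
      have h7 : Real.log z.im * x ≤ Real.log (1 + t1) * x := mul_le_mul_of_nonneg_right h4 hx0
      have h8 : C * x ≤ C * 1 := mul_le_mul_of_nonneg_left (by linarith) (by linarith)
      nlinarith
    have h4 : ‖X1 ⟨1 / 2 - x, z.im⟩‖ ≤ Real.exp (C + 1) := h2.trans (Real.exp_le_exp.mpr h3)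
    calc ‖X1 ⟨1 / 2 - x, z.im⟩‖ * ‖LL ⟨1 / 2 + x, z.im⟩‖ ≤ Real.exp (C + 1) * (K * V1) :=
          mul_le_mul h4 h1 (norm_nonneg _) (Real.exp_pos _).le
      _ = _ := by ring

theorem local_mass : ∃ K : ℝ, 1 ≤ K ∧ ∀ t1 : ℝ, 1 ≤ V t1 →
    (∀ y : ℝ, V y ≤ V t1 * Real.exp |y - t1|) → 2 ≤ t1 → ∀ y : ℝ,
    |y - t1| ≤ 1 / (K * (1 + Real.log (1 + t1))) → V t1 / 2 ≤ V y := by
  obtain ⟨K, hK1, hK⟩ := disc_sup
  refine ⟨4 * K, by linarith, ?_⟩
  intro t1 hV1 hV ht1 y hy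
  set ℓ : ℝ := 1 + Real.log (1 + t1) with hℓ
  have hl : 0 ≤ Real.log (1 + t1) := Real.log_nonneg (by linarith)
  have hℓ1 : 1 ≤ ℓ := by linarith
  have hsmall : 1 / (4 * K * ℓ) ≤ 1 / 4 := by
    apply one_div_le_one_div_of_le (by norm_num)
    nlinarith
  have hder : ∀ u : ℝ, |u - t1| ≤ 1 / 2 → ‖deriv LL ⟨1 / 2, u⟩‖ ≤ K * V t1 * (2 * ℓ) := by
    intro u hu
    obtain ⟨u1, u2⟩ := abs_le.mp hu
    have hr0 : 0 < 1 / (2 * ℓ) := by positivity
    have hr1 : 1 / (2 * ℓ) ≤ 1 / 2 := one_div_le_one_div_of_le (by norm_num) (by linarith)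
    have hin : ∀ z ∈ closedBall (⟨1 / 2, u⟩ : ℂ) (1 / (2 * ℓ)),
        |z.re - 1 / 2| ≤ 1 / (2 * ℓ) ∧ |z.im - u| ≤ 1 / 2 := by
      intro z hz
      rw [mem_closedBall, dist_eq_norm] at hz
      have h1 := (abs_re_le_norm (z - ⟨1 / 2, u⟩)).trans hz
      have h2 := (abs_im_le_norm (z - ⟨1 / 2, u⟩)).trans hz
      rw [sub_re] at h1
      rw [sub_im] at h2
      exact ⟨h1, h2.trans hr1⟩
    have h := norm_deriv_le_of_forall_mem_sphere_norm_le (f := LL) (c := ⟨1 / 2, u⟩)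
      (R := 1 / (2 * ℓ)) (C := K * V t1) hr0 (by
        apply DifferentiableOn.diffContOnCl
        intro z hz
        have hz' := hin z (closure_ball_subset_closedBall hz)
        have : z ≠ 1 := by
          apply ne_one_of_im
          have := (abs_le.mp hz'.2).1
          intro h0
          linarith
        exact (analyticAt_L this).differentiableAt.differentiableWithinAt)
      (fun z hz => by
        have hz' := hin z (sphere_subset_closedBall hz)
        apply hK t1 (V t1) hV1 hV ht1 z hz'.1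
        obtain ⟨a1, a2⟩ := abs_le.mp hz'.2
        rw [abs_le]
        constructor <;> linarith)
    refine h.trans (le_of_eq ?_)
    field_simp
  have hd : ∀ u ∈ Icc (t1 - 1 / 2) (t1 + 1 / 2),
      HasDerivWithinAt (fun u : ℝ => LL ⟨1 / 2, u⟩) (deriv LL ⟨1 / 2, u⟩ * I)
        (Icc (t1 - 1 / 2) (t1 + 1 / 2)) u := by
    intro u _
    have ha : AnalyticAt ℂ LL ⟨1 / 2, u⟩ := analyticAt_L (line_ne_one u)
    have h2 : HasDerivAt (fun y : ℝ => (⟨1 / 2, y⟩ : ℂ)) I u := by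
      have e : (fun y : ℝ => (⟨1 / 2, y⟩ : ℂ)) = fun y : ℝ => 1 / 2 + (y : ℂ) * I := by
        funext y
        apply Complex.ext <;> simp
      rw [e]
      have h3 := ((ofRealCLM.hasDerivAt (x := u)).mul_const I).const_add (1 / 2)
      simpa using h3
    exact (HasDerivAt.comp u ha.differentiableAt.hasDerivAt h2).hasDerivWithinAt
  have hy2 : |y - t1| ≤ 1 / 2 := by linarith
  have hmv := (convex_Icc (t1 - 1 / 2) (t1 + 1 / 2)).norm_image_sub_le_of_norm_hasDerivWithin_le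
    (f := fun u : ℝ => LL ⟨1 / 2, u⟩) (f' := fun u => deriv LL ⟨1 / 2, u⟩ * I)
    (C := K * V t1 * (2 * ℓ)) (x := t1) (y := y) hd
    (fun u hu => by
      rw [norm_mul, norm_I, mul_one]
      apply hder
      rw [abs_le]
      constructor <;> linarith [hu.1, hu.2])
    ⟨by linarith, by linarith⟩ (by
      obtain ⟨a1, a2⟩ := abs_le.mp hy2
      constructor <;> linarith)
  rw [Real.norm_eq_abs] at hmv
  have h5 : K * V t1 * (2 * ℓ) * |y - t1| ≤ V t1 / 2 := by
    calc K * V t1 * (2 * ℓ) * |y - t1| ≤ K * V t1 * (2 * ℓ) * (1 / (4 * K * ℓ)) := by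
          apply mul_le_mul_of_nonneg_left hy
          positivity
      _ = V t1 / 2 := by field_simp; norm_num
  have h6 : V t1 - V y ≤ ‖LL ⟨1 / 2, y⟩ - LL ⟨1 / 2, t1⟩‖ := by
    have := norm_sub_norm_le (LL ⟨1 / 2, t1⟩) (LL ⟨1 / 2, y⟩)
    rw [norm_sub_rev] at this
    exact this
  linarith

theorem exists_t1 {g : ℝ} (hg : 1 ≤ V g) : ∃ t1 : ℝ, |t1 - g| ≤ 8 * (1 + Real.log (1 + |g|)) ∧
    V g ≤ V t1 ∧ ∀ y : ℝ, V y ≤ V t1 * Real.exp |y - t1| := by
  set P : ℝ := 1 + |g| with hP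
  have hP1 : 1 ≤ P := by rw [hP]; linarith [abs_nonneg g]
  have hlP : 0 ≤ Real.log P := Real.log_nonneg hP1
  set R : ℝ := 2 * Real.log (22 * P) with hR
  have hR0 : 0 ≤ R := by
    have : 0 ≤ Real.log (22 * P) := Real.log_nonneg (by linarith)
    linarith
  have hR8 : R ≤ 8 * (1 + Real.log P) := by
    have h1 : Real.log (22 * P) = Real.log 22 + Real.log P := Real.log_mul (by norm_num) (by linarith)
    have h2 : Real.log 22 ≤ 4 := by
      have h3 : (22 : ℝ) ≤ Real.exp 4 := by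
        have h4 := Real.exp_one_gt_d9
        have h5 : Real.exp 4 = Real.exp 1 ^ 4 := by rw [← Real.exp_nat_mul]; norm_num
        have h6 : (2.7 : ℝ) ≤ Real.exp 1 := by linarith
        have h7 : (2.7 : ℝ) ^ 4 ≤ Real.exp 1 ^ 4 := by gcongr
        rw [h5]
        refine le_trans ?_ h7
        norm_num
      rw [Real.log_le_iff_le_exp (by norm_num)]
      exact h3
    rw [hR, h1]
    linarith
  have hcont : Continuous (fun t : ℝ => V t * Real.exp (-|t - g|)) :=
    continuous_V.mul (Real.continuous_exp.comp ((continuous_id.sub continuous_const).abs.neg))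
  obtain ⟨t1, ht1, hmax⟩ := (isCompact_Icc (a := g - R) (b := g + R)).exists_isMaxOn
    ⟨g, by constructor <;> linarith⟩ hcont.continuousOn
  have hgm : V g ≤ V t1 * Real.exp (-|t1 - g|) := by
    have h := hmax (show g ∈ Icc (g - R) (g + R) from ⟨by linarith, by linarith⟩)
    simp only [mem_ofPred_eq, sub_self, abs_zero, neg_zero, Real.exp_zero, mul_one] at h
    exact h
  have hall : ∀ y : ℝ, V y * Real.exp (-|y - g|) ≤ V t1 * Real.exp (-|t1 - g|) := by
    intro y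
    by_cases hy : y ∈ Icc (g - R) (g + R)
    · exact hmax hy
    · refine le_trans ?_ (hg.trans hgm)
      have hu : R ≤ |y - g| := by
        rw [mem_Icc, not_and_or, not_le, not_le] at hy
        rcases hy with hy | hy
        · rw [abs_of_nonpos (by linarith)]; linarith
        · rw [abs_of_nonneg (by linarith)]; linarith
      set u : ℝ := |y - g| with hudef
      have hu0 : 0 ≤ u := abs_nonneg _
      have h1 : V y ≤ 11 * (P * (1 + u)) := by
        refine (V_growth y).trans ?_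
        have : |y| ≤ |g| + u := by
          calc |y| = |g + (y - g)| := by ring_nf
            _ ≤ _ := abs_add_le _ _
        nlinarith [abs_nonneg g]
      have h2 : 1 + u ≤ 2 * Real.exp (u / 2) := by
        have := Real.add_one_le_exp (u / 2)
        linarith
      have h3 : V y * Real.exp (-u) ≤ 22 * P * Real.exp (-(u / 2)) := by
        calc V y * Real.exp (-u) ≤ (11 * (P * (2 * Real.exp (u / 2)))) * Real.exp (-u) := by
              apply mul_le_mul_of_nonneg_right _ (Real.exp_pos _).le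
              exact h1.trans (by gcongr)
          _ = 22 * P * (Real.exp (u / 2) * Real.exp (-u)) := by ring
          _ = 22 * P * Real.exp (-(u / 2)) := by
              rw [← Real.exp_add]
              congr 2
              ring
      refine h3.trans ?_
      have h4 : Real.exp (-(u / 2)) ≤ (22 * P)⁻¹ := by
        rw [← Real.exp_log (show 0 < 22 * P by linarith), ← Real.exp_neg]
        apply Real.exp_le_exp.mpr
        linarith
      calc 22 * P * Real.exp (-(u / 2)) ≤ 22 * P * (22 * P)⁻¹ := by gcongr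
        _ = 1 := mul_inv_cancel₀ (by linarith)
  have hV0 : 0 ≤ V t1 := V_nonneg _
  refine ⟨t1, ?_, ?_, ?_⟩
  · rw [abs_le]
    constructor <;> linarith [ht1.1, ht1.2]
  · refine hgm.trans ?_
    have : Real.exp (-|t1 - g|) ≤ 1 := Real.exp_le_one_iff.mpr (by linarith [abs_nonneg (t1 - g)])
    nlinarith
  · intro y
    have h := hall y
    have h1 : V y = V y * Real.exp (-|y - g|) * Real.exp |y - g| := by
      rw [mul_assoc, ← Real.exp_add]
      simp
    rw [h1]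
    calc V y * Real.exp (-|y - g|) * Real.exp |y - g|
        ≤ V t1 * Real.exp (-|t1 - g|) * Real.exp |y - g| := by gcongr
      _ = V t1 * Real.exp (-|t1 - g| + |y - g|) := by rw [mul_assoc, ← Real.exp_add]
      _ ≤ V t1 * Real.exp |y - t1| := by
        apply mul_le_mul_of_nonneg_left _ hV0
        apply Real.exp_le_exp.mpr
        have : |y - g| ≤ |y - t1| + |t1 - g| := abs_sub_le _ _ _
        linarith

end H429.MG
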