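import Pool.Agent.H429R4.MG.F2
import Pool.Agent.H429R4.MG.F3

/-!
Sums of powers of the values of the zeta function at the Gram points.
-/

open Complex Filter Topology Set Metric MeasureTheory

namespace H429.MG

open H370.DL H429.GP

noncomputable def ll (t : ℝ) : ℝ := 1 + Real.log (1 + t)

theorem one_le_ll {t : ℝ} (ht : 0 ≤ t) : 1 ≤ ll t := by
  unfold ll
  linarith [Real.log_nonneg (show (1 : ℝ) ≤ 1 + t by linarith)]

theorem ll_mono {s t : ℝ} (hs : 0 ≤ s) (hst : s ≤ t) : ll s ≤ ll t := by
  unfold ll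
  linarith [Real.log_le_log (show (0 : ℝ) < 1 + s by linarith) (show 1 + s ≤ 1 + t by linarith)]

theorem window_small {g : ℝ} (hg : 1700 ≤ g) : 10 * ll g ≤ g / 2 := by
  set s : ℝ := √(1 + g) with hs
  have hs2 : s ^ 2 = 1 + g := Real.sq_sqrt (by linarith)
  have hs41 : 41 ≤ s := by
    rw [hs]
    apply Real.le_sqrt_of_sq_le
    linarith
  have h1 : Real.log (1 + g) = 2 * Real.log s := by
    rw [← hs2, Real.log_pow]
    norm_num
  have h2 : Real.log s ≤ s - 1 := Real.log_le_sub_one_of_pos (by linarith)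
  unfold ll
  rw [h1]
  nlinarith

theorem continuous_Vp {p : ℝ} (hp : 0 < p) : Continuous (fun t => V t ^ p) :=
  continuous_V.rpow_const (fun _ => Or.inr hp.le)

theorem local_lower {p : ℝ} (hp : 0 < p) : ∃ C : ℝ, 1 ≤ C ∧ ∀ g : ℝ, 1700 ≤ g →
    V g ^ p ≤ 1 + C * ll g * ∫ t in (g - 10 * ll g)..(g + 10 * ll g), V t ^ p := by
  obtain ⟨K, hK1, hK⟩ := local_mass
  have h2p : (1 : ℝ) ≤ 2 ^ p := Real.one_le_rpow (by norm_num) hp.le
  refine ⟨2 ^ p * (2 * K), by nlinarith, ?_⟩
  intro g hg
  have hg0 : 0 ≤ g := by linarith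
  have hl1 := one_le_ll hg0
  have hcont := continuous_Vp hp
  have hint0 : 0 ≤ ∫ t in (g - 10 * ll g)..(g + 10 * ll g), V t ^ p := by
    apply intervalIntegral.integral_nonneg (by linarith)
    intro u _
    exact Real.rpow_nonneg (V_nonneg u) p
  rcases lt_or_ge (V g) 1 with hV | hV
  · have h1 : V g ^ p ≤ 1 := Real.rpow_le_one (V_nonneg g) hV.le hp.le
    have h2 : 0 ≤ 2 ^ p * (2 * K) * ll g * ∫ t in (g - 10 * ll g)..(g + 10 * ll g), V t ^ p := by
      positivity
    linarith
  obtain ⟨t1, h1, h2, h3⟩ := exists_t1 hV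
  have hag : |g| = g := abs_of_nonneg hg0
  rw [hag] at h1
  have hw := window_small hg
  have h1' : |t1 - g| ≤ 8 * ll g := h1
  obtain ⟨a1, a2⟩ := abs_le.mp h1'
  have ht1 : 2 ≤ t1 := by linarith
  have ht1g : t1 ≤ 2 * g := by linarith
  have hlt1 : ll t1 ≤ 2 * ll g := by
    have e1 : ll t1 ≤ ll (2 * g) := ll_mono (by linarith) ht1g
    have e2 : ll (2 * g) ≤ 1 + ll g := by
      unfold ll
      have e3 : Real.log (1 + 2 * g) ≤ Real.log (2 * (1 + g)) :=
        Real.log_le_log (by linarith) (by linarith)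
      rw [Real.log_mul (by norm_num) (by linarith)] at e3
      have e4 : Real.log 2 ≤ 1 := by
        have := Real.log_le_sub_one_of_pos (by norm_num : (0 : ℝ) < 2)
        linarith
      linarith
    linarith
  have hlt1' : 1 ≤ ll t1 := one_le_ll (by linarith)
  set d : ℝ := 1 / (K * ll t1) with hd
  have hd0 : 0 < d := by positivity
  have hd1 : d ≤ 1 := by
    rw [hd, div_le_one (by positivity)]
    nlinarith
  have hmass : ∀ y ∈ Icc t1 (t1 + d), V t1 / 2 ≤ V y := by
    intro y hy
    apply hK t1 (hV.trans h2) h3 ht1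
    rw [abs_of_nonneg (by linarith [hy.1])]
    have : d = 1 / (K * (1 + Real.log (1 + t1))) := rfl
    linarith [hy.2]
  have hlow : d * (V t1 / 2) ^ p ≤ ∫ t in t1..(t1 + d), V t ^ p := by
    have e1 : ∫ _ in t1..(t1 + d), (V t1 / 2) ^ p = d * (V t1 / 2) ^ p := by
      rw [intervalIntegral.integral_const, smul_eq_mul]
      ring
    rw [← e1]
    apply intervalIntegral.integral_mono_on (by linarith) intervalIntegrable_const
      (hcont.intervalIntegrable _ _)
    intro y hy
    exact Real.rpow_le_rpow (by linarith [V_nonneg t1]) (hmass y hy) hp.le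
  have hbig : ∫ t in t1..(t1 + d), V t ^ p ≤
      ∫ t in (g - 10 * ll g)..(g + 10 * ll g), V t ^ p := by
    apply intervalIntegral.integral_mono_interval (by linarith) (by linarith) (by linarith)
    · exact Filter.Eventually.of_forall fun u => Real.rpow_nonneg (V_nonneg u) p
    · exact hcont.intervalIntegrable _ _
  set J : ℝ := ∫ t in (g - 10 * ll g)..(g + 10 * ll g), V t ^ p with hJ
  have e2 : V g ^ p ≤ V t1 ^ p := Real.rpow_le_rpow (V_nonneg g) h2 hp.le
  have e3 : V t1 ^ p = 2 ^ p * (V t1 / 2) ^ p := by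
    rw [← Real.mul_rpow (by norm_num) (by linarith [V_nonneg t1])]
    congr 1
    ring
  have e4 : (V t1 / 2) ^ p ≤ K * ll t1 * J := by
    have e5 : d * (V t1 / 2) ^ p ≤ J := hlow.trans hbig
    have e6 : K * ll t1 * (d * (V t1 / 2) ^ p) = (V t1 / 2) ^ p := by
      rw [hd]
      field_simp
    rw [← e6]
    exact mul_le_mul_of_nonneg_left e5 (by positivity)
  have e7 : K * ll t1 * J ≤ K * (2 * ll g) * J := by gcongr
  calc V g ^ p ≤ 2 ^ p * (V t1 / 2) ^ p := e2.trans e3.le
    _ ≤ 2 ^ p * (K * (2 * ll g) * J) := by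
      apply mul_le_mul_of_nonneg_left (e4.trans e7) (by positivity)
    _ ≤ 1 + 2 ^ p * (2 * K) * ll g * J := by linarith

theorem sum_gram {p : ℝ} (hp : 0 < p) : ∃ C : ℝ, 0 < C ∧ ∃ Y : ℝ, 1 ≤ Y ∧ ∀ ω : ℂ, ‖ω‖ = 1 →
    ∀ T : ℝ, Y ≤ T → ∀ S : Finset ℝ, (∀ g ∈ S, Y ≤ g ∧ g ≤ T ∧ X1 ⟨1 / 2, g⟩ = ω ^ 2) →
    ∑ g ∈ S, V g ^ p ≤ C * ll T * T + C * ll T ^ 3 * ∫ t in (0 : ℝ)..(2 * T), V t ^ p := by
  obtain ⟨C, hC1, hC⟩ := local_lower hp
  obtain ⟨Cc, hCc0, Y0, hY0, hcount⟩ := count
  have hcont := continuous_Vp hp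
  refine ⟨Cc + C * (21 * Cc), by positivity, max 1700 Y0, by
    exact (by norm_num : (1 : ℝ) ≤ 1700).trans (le_max_left _ _), ?_⟩
  intro ω hω T hT S hS
  have hT1700 : 1700 ≤ T := (le_max_left _ _).trans hT
  have hTY0 : Y0 ≤ T := (le_max_right _ _).trans hT
  have hT0 : 0 ≤ T := by linarith
  have hlT := one_le_ll hT0
  set W : ℝ := 10 * ll T with hW
  have hcard : (S.card : ℝ) ≤ Cc * ll T * T := by
    have h := hcount ω hω (max 1700 Y0) T (le_max_right _ _) hT S hS
    refine h.trans ?_
    have : T - max 1700 Y0 + 1 ≤ T := by linarith [le_max_left (1700 : ℝ) Y0]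
    have h0 : 0 ≤ Cc * (1 + Real.log (1 + T)) := by
      have : 0 ≤ Real.log (1 + T) := Real.log_nonneg (by linarith)
      positivity
    exact mul_le_mul_of_nonneg_left this h0
  set J : ℝ := ∫ t in (0 : ℝ)..(2 * T), V t ^ p with hJ
  have hnn : ∀ u : ℝ, 0 ≤ V u ^ p := fun u => Real.rpow_nonneg (V_nonneg u) p
  have hII : ∀ g : ℝ, ∀ a b : ℝ, IntervalIntegrable
      ((Icc (g - W) (g + W)).indicator (fun t => V t ^ p)) volume a b := by
    intro g a b
    have h := hcont.intervalIntegrable (μ := volume) a b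
    exact ⟨h.1.indicator measurableSet_Icc, h.2.indicator measurableSet_Icc⟩
  have hone : ∀ g ∈ S, ∫ t in (g - 10 * ll g)..(g + 10 * ll g), V t ^ p ≤
      ∫ t in (0 : ℝ)..(2 * T), (Icc (g - W) (g + W)).indicator (fun t => V t ^ p) t := by
    intro g hg
    obtain ⟨g1, g2, -⟩ := hS g hg
    have g3 : 1700 ≤ g := (le_max_left _ _).trans g1
    have hw := window_small g3
    have hlg := one_le_ll (show 0 ≤ g by linarith)
    have hgT : ll g ≤ ll T := ll_mono (by linarith) g2
    have e1 : ∫ t in (g - 10 * ll g)..(g + 10 * ll g), V t ^ p =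
        ∫ t in (g - 10 * ll g)..(g + 10 * ll g),
          (Icc (g - W) (g + W)).indicator (fun t => V t ^ p) t := by
      apply intervalIntegral.integral_congr
      intro t ht
      rw [uIcc_of_le (by linarith)] at ht
      simp only
      rw [indicator_of_mem]
      constructor <;> linarith [ht.1, ht.2]
    rw [e1]
    apply intervalIntegral.integral_mono_interval (by linarith) (by linarith) (by linarith)
    · exact Filter.Eventually.of_forall fun u => indicator_nonneg (fun v _ => hnn v) u
    · exact hII g _ _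
  have hpt : ∀ t : ℝ, ∑ g ∈ S, (Icc (g - W) (g + W)).indicator (fun t => V t ^ p) t ≤
      (21 * Cc * ll T ^ 2) * V t ^ p := by
    intro t
    have e1 : ∑ g ∈ S, (Icc (g - W) (g + W)).indicator (fun t => V t ^ p) t =
        ∑ g ∈ S with t ∈ Icc (g - W) (g + W), V t ^ p := by
      rw [Finset.sum_filter]
      apply Finset.sum_congr rfl
      intro g _
      rw [indicator_apply]
    rw [e1, Finset.sum_const, nsmul_eq_mul]
    apply mul_le_mul_of_nonneg_right _ (hnn t)
    set S' : Finset ℝ := S.filter (fun g => t ∈ Icc (g - W) (g + W)) with hS'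
    rcases S'.eq_empty_or_nonempty with h0 | ⟨g0, hg0⟩
    · rw [h0, Finset.card_empty, Nat.cast_zero]
      positivity
    · have hmem : ∀ g ∈ S', max Y0 (t - W) ≤ g ∧ g ≤ min T (t + W) ∧ X1 ⟨1 / 2, g⟩ = ω ^ 2 := by
        intro g hg
        rw [hS', Finset.mem_filter] at hg
        obtain ⟨g1, g2, g3⟩ := hS g hg.1
        refine ⟨max_le ((le_max_right _ _).trans g1) (by linarith [hg.2.2]),
          le_min g2 (by linarith [hg.2.1]), g3⟩
      obtain ⟨m1, m2, -⟩ := hmem g0 hg0
      have h := hcount ω hω (max Y0 (t - W)) (min T (t + W)) (le_max_left _ _)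
        (m1.trans m2) S' hmem
      refine h.trans ?_
      have h1 : Real.log (1 + min T (t + W)) ≤ Real.log (1 + T) := by
        apply Real.log_le_log
        · have : 1 ≤ min T (t + W) := (hY0.trans (le_max_left _ _)).trans (m1.trans m2)
          linarith
        · linarith [min_le_left T (t + W)]
      have h2 : min T (t + W) - max Y0 (t - W) + 1 ≤ 21 * ll T := by
        have := min_le_right T (t + W)
        have := le_max_right Y0 (t - W)
        linarith
      have h3 : 0 ≤ min T (t + W) - max Y0 (t - W) + 1 := by linarith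
      have h4 : 1 + Real.log (1 + min T (t + W)) ≤ ll T := by unfold ll; linarith
      calc Cc * (1 + Real.log (1 + min T (t + W))) * (min T (t + W) - max Y0 (t - W) + 1)
          ≤ Cc * ll T * (21 * ll T) := by
            apply mul_le_mul _ h2 h3 (by positivity)
            exact mul_le_mul_of_nonneg_left h4 hCc0.le
        _ = _ := by ring
  have hsum : ∑ g ∈ S, ∫ t in (g - 10 * ll g)..(g + 10 * ll g), V t ^ p ≤
      (21 * Cc * ll T ^ 2) * J := by
    calc ∑ g ∈ S, ∫ t in (g - 10 * ll g)..(g + 10 * ll g), V t ^ p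
        ≤ ∑ g ∈ S, ∫ t in (0 : ℝ)..(2 * T), (Icc (g - W) (g + W)).indicator (fun t => V t ^ p) t :=
          Finset.sum_le_sum hone
      _ = ∫ t in (0 : ℝ)..(2 * T), ∑ g ∈ S, (Icc (g - W) (g + W)).indicator (fun t => V t ^ p) t := by
          rw [intervalIntegral.integral_finsetSum]
          intro g _
          exact hII g _ _
      _ ≤ ∫ t in (0 : ℝ)..(2 * T), (21 * Cc * ll T ^ 2) * V t ^ p := by
          apply intervalIntegral.integral_mono_on (by linarith)
          · have h := IntervalIntegrable.sum S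
              (f := fun g => (Icc (g - W) (g + W)).indicator (fun t => V t ^ p))
              (μ := volume) (a := 0) (b := 2 * T) (fun g _ => hII g _ _)
            have e : (∑ g ∈ S, (Icc (g - W) (g + W)).indicator (fun t => V t ^ p)) =
                fun t => ∑ g ∈ S, (Icc (g - W) (g + W)).indicator (fun t => V t ^ p) t := by
              funext t
              rw [Finset.sum_apply]
            rw [e] at h
            exact h
          · exact (continuous_const.mul hcont).intervalIntegrable _ _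
          · intro t _
            exact hpt t
      _ = _ := by
          rw [intervalIntegral.integral_const_mul]
  have hJ0 : 0 ≤ J := by
    rw [hJ]
    apply intervalIntegral.integral_nonneg (by linarith)
    intro u _
    exact hnn u
  calc ∑ g ∈ S, V g ^ p
      ≤ ∑ g ∈ S, (1 + C * ll T * ∫ t in (g - 10 * ll g)..(g + 10 * ll g), V t ^ p) := by
        apply Finset.sum_le_sum
        intro g hg
        obtain ⟨g1, g2, -⟩ := hS g hg
        have g3 : 1700 ≤ g := (le_max_left _ _).trans g1
        have hlg := one_le_ll (show 0 ≤ g by linarith)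
        refine (hC g g3).trans ?_
        have h0 : 0 ≤ ∫ t in (g - 10 * ll g)..(g + 10 * ll g), V t ^ p := by
          apply intervalIntegral.integral_nonneg (by linarith)
          intro u _
          exact hnn u
        have hgT : ll g ≤ ll T := ll_mono (by linarith) g2
        have : C * ll g * (∫ t in (g - 10 * ll g)..(g + 10 * ll g), V t ^ p) ≤
            C * ll T * ∫ t in (g - 10 * ll g)..(g + 10 * ll g), V t ^ p := by gcongr
        linarith
    _ = S.card + C * ll T * ∑ g ∈ S, ∫ t in (g - 10 * ll g)..(g + 10 * ll g), V t ^ p := by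
        rw [Finset.sum_add_distrib, Finset.sum_const, nsmul_eq_mul, mul_one, ← Finset.mul_sum]
    _ ≤ Cc * ll T * T + C * ll T * ((21 * Cc * ll T ^ 2) * J) := by
        apply add_le_add hcard
        apply mul_le_mul_of_nonneg_left hsum
        positivity
    _ ≤ (Cc + C * (21 * Cc)) * ll T * T + (Cc + C * (21 * Cc)) * ll T ^ 3 * J := by
        have q1 : 0 ≤ C * (21 * Cc) * ll T * T := by positivity
        have q2 : 0 ≤ Cc * ll T ^ 3 * J := by positivity
        nlinarith

end H429.MG
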