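import Pool.Agent.H429R4.MG.F4

/-!
Moments of the zeta function bounded by the negative values at the Gram points.
-/

open Complex Filter Topology Set Metric MeasureTheory

namespace H429.MG

open H370.DL H429.GP

theorem two_pow_le {a b p : ℝ} (ha : 0 ≤ a) (hb : 0 ≤ b) (hp : 0 < p) :
    (a + b) ^ p ≤ 2 ^ p * (a ^ p + b ^ p) := by
  have hm : 0 ≤ max a b := le_max_of_le_left ha
  have h1 : a + b ≤ 2 * max a b := by linarith [le_max_left a b, le_max_right a b]
  calc (a + b) ^ p ≤ (2 * max a b) ^ p := Real.rpow_le_rpow (by linarith) h1 hp.le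
    _ = 2 ^ p * (max a b) ^ p := Real.mul_rpow (by norm_num) hm
    _ ≤ 2 ^ p * (a ^ p + b ^ p) := by
      apply mul_le_mul_of_nonneg_left _ (by positivity)
      have ha' : 0 ≤ a ^ p := Real.rpow_nonneg ha p
      have hb' : 0 ≤ b ^ p := Real.rpow_nonneg hb p
      rcases max_choice a b with h | h <;> rw [h] <;> linarith

theorem upper_pt {p : ℝ} (hp : 0 < p) {ω : ℂ} (hω : ‖ω‖ = 1) : ∃ C : ℝ, 0 < C ∧ ∀ t : ℝ,
    ∀ S : Finset ℝ,
    (∀ g : ℝ, |g - t| ≤ 6 * √(1 + Real.log (1 + |t|)) → X1 ⟨1 / 2, g⟩ = ω ^ 2 →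
      ((starRingEnd ℂ) ω * LL ⟨1 / 2, g⟩).re < 0 → g ∈ S) →
    V t ^ p ≤ C * (1 + Real.log (1 + |t|)) ^ p * ((1 + Real.log (1 + |t|)) ^ p +
      ∑ g ∈ S with |g - t| ≤ 6 * √(1 + Real.log (1 + |t|)), V g ^ p) := by
  obtain ⟨C, hC, h⟩ := local_transfer_log prim1 hω
  refine ⟨C ^ p * 2 ^ p, by positivity, ?_⟩
  intro t S hS
  set ℓ : ℝ := 1 + Real.log (1 + |t|) with hℓ
  have hl0 : 0 ≤ Real.log (1 + |t|) := Real.log_nonneg (by linarith [abs_nonneg t])
  have hℓ1 : 1 ≤ ℓ := by linarith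
  set Sg : ℝ := ∑ g ∈ S with |g - t| ≤ 6 * √ℓ, V g ^ p with hSgd
  have hnn : ∀ u : ℝ, 0 ≤ V u ^ p := fun u => Real.rpow_nonneg (V_nonneg u) p
  have hSg0 : 0 ≤ Sg := Finset.sum_nonneg fun g _ => hnn g
  set M : ℝ := Sg ^ (1 / p) with hM
  have hM0 : 0 ≤ M := Real.rpow_nonneg hSg0 _
  have hMp : M ^ p = Sg := by
    rw [hM, ← Real.rpow_mul hSg0, one_div, inv_mul_cancel₀ hp.ne', Real.rpow_one]
  have h1 := h t M hM0 (by
    intro y hy hX
    rw [Nat.cast_one, one_mul] at hy
    rcases lt_or_ge ((starRingEnd ℂ) ω * LL ⟨1 / 2, y⟩).re 0 with hneg | hpos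
    · have hyS := hS y hy hX hneg
      have hle : V y ^ p ≤ Sg :=
        Finset.single_le_sum (f := fun g => V g ^ p) (fun g _ => hnn g)
          (Finset.mem_filter.mpr ⟨hyS, hy⟩)
      have hle2 : V y ≤ M := by
        have := Real.rpow_le_rpow (hnn y) hle (show 0 ≤ 1 / p by positivity)
        rwa [← Real.rpow_mul (V_nonneg y), mul_one_div_cancel hp.ne', Real.rpow_one] at this
      have h6 := (abs_le.mp (abs_re_le_norm ((starRingEnd ℂ) ω * LL ⟨1 / 2, y⟩))).1
      rw [norm_mul, RCLike.norm_conj, hω, one_mul] at h6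
      have h7 : ‖LL ⟨1 / 2, y⟩‖ = V y := rfl
      rw [h7] at h6
      exact le_trans (by linarith) h6
    · exact le_trans (by linarith) hpos)
  rw [Nat.cast_one, one_mul] at h1
  have h2 : V t ≤ C * ℓ * (ℓ + M) := h1
  calc V t ^ p ≤ (C * ℓ * (ℓ + M)) ^ p := Real.rpow_le_rpow (V_nonneg t) h2 hp.le
    _ = C ^ p * ℓ ^ p * (ℓ + M) ^ p := by
      rw [Real.mul_rpow (by positivity) (by positivity), Real.mul_rpow hC.le (by linarith)]
    _ ≤ C ^ p * ℓ ^ p * (2 ^ p * (ℓ ^ p + M ^ p)) := by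
      apply mul_le_mul_of_nonneg_left (two_pow_le (by linarith) hM0 hp)
      have : 0 ≤ ℓ ^ p := Real.rpow_nonneg (by linarith) p
      positivity
    _ = _ := by rw [hMp]; ring

theorem ind_int {a b l r c : ℝ} (hab : a ≤ b) (hlr : l ≤ r) (hc : 0 ≤ c) :
    ∫ t in a..b, (Icc l r).indicator (fun _ => c) t ≤ (r - l) * c := by
  rw [intervalIntegral.integral_of_le hab, integral_indicator measurableSet_Icc,
    setIntegral_const, smul_eq_mul]
  apply mul_le_mul_of_nonneg_right _ hc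
  have h1 : (volume.restrict (Ioc a b)) (Icc l r) ≤ volume (Icc l r) :=
    Measure.restrict_apply_le _ _
  have h2 : volume (Icc l r) = ENNReal.ofReal (r - l) := Real.volume_Icc
  have h3 : (volume.restrict (Ioc a b)).real (Icc l r) ≤ (volume (Icc l r)).toReal :=
    ENNReal.toReal_mono (by rw [h2]; exact ENNReal.ofReal_ne_top) h1
  rw [h2, ENNReal.toReal_ofReal (by linarith)] at h3
  exact h3

theorem upper_int {p : ℝ} (hp : 0 < p) {ω : ℂ} (hω : ‖ω‖ = 1) : ∃ C : ℝ, 0 < C ∧ ∀ T : ℝ,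
    37 ≤ T → ∀ S : Finset ℝ,
    (∀ g : ℝ, 0 ≤ g → g ≤ 2 * T → X1 ⟨1 / 2, g⟩ = ω ^ 2 →
      ((starRingEnd ℂ) ω * LL ⟨1 / 2, g⟩).re < 0 → g ∈ S) →
    ∫ t in (37 : ℝ)..T, V t ^ p ≤ C * ll T ^ (2 * p) * T +
      C * ll T ^ (p + 1 / 2) * ∑ g ∈ S, V g ^ p := by
  obtain ⟨C, hC, h⟩ := upper_pt hp hω
  refine ⟨C * 12, by positivity, ?_⟩
  intro T hT S hS
  have hcont := continuous_Vp hp
  have hlT := one_le_ll (show 0 ≤ T by linarith)
  set W : ℝ := 6 * √(ll T) with hW
  have hsq0 : 0 ≤ √(ll T) := Real.sqrt_nonneg _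
  have hW0 : 0 ≤ W := by positivity
  have hnn : ∀ u : ℝ, 0 ≤ V u ^ p := fun u => Real.rpow_nonneg (V_nonneg u) p
  have hII : ∀ g c a b : ℝ, IntervalIntegrable
      ((Icc (g - W) (g + W)).indicator (fun _ => c)) volume a b := by
    intro g c a b
    have h := intervalIntegrable_const (μ := volume) (a := a) (b := b) (c := c)
    exact ⟨h.1.indicator measurableSet_Icc, h.2.indicator measurableSet_Icc⟩
  have hlp0 : 0 ≤ ll T ^ p := Real.rpow_nonneg (by linarith) p
  have hpt : ∀ t ∈ Icc (37 : ℝ) T, V t ^ p ≤ C * ll T ^ p * (ll T ^ p +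
      ∑ g ∈ S, (Icc (g - W) (g + W)).indicator (fun _ => V g ^ p) t) := by
    intro t ht
    have ht0 : 0 ≤ t := by linarith [ht.1]
    have hat : |t| = t := abs_of_nonneg ht0
    have hlt : 1 + Real.log (1 + |t|) = ll t := by rw [hat]; rfl
    have hllt := one_le_ll ht0
    have hltT : ll t ≤ ll T := ll_mono ht0 ht.2
    have hsqt : √(ll t) ≤ √(ll T) := Real.sqrt_le_sqrt hltT
    have hwin : ∀ u : ℝ, 37 ≤ u → 6 * √(ll u) ≤ u := by
      intro u hu
      have h1 : √(ll u) ≤ u / 6 := by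
        rw [Real.sqrt_le_left (by linarith)]
        unfold ll
        have := Real.log_le_sub_one_of_pos (show 0 < 1 + u by linarith)
        nlinarith
      linarith
    have h1 := h t S (by
      intro g hg hX hneg
      rw [hlt] at hg
      obtain ⟨a1, a2⟩ := abs_le.mp hg
      have w1 := hwin t ht.1
      exact hS g (by linarith) (by linarith [ht.2]) hX hneg)
    rw [hlt] at h1
    refine h1.trans ?_
    have hltp : ll t ^ p ≤ ll T ^ p := Real.rpow_le_rpow (by linarith) hltT hp.le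
    have hltp0 : 0 ≤ ll t ^ p := Real.rpow_nonneg (by linarith) p
    have hsum : ∑ g ∈ S with |g - t| ≤ 6 * √(ll t), V g ^ p ≤
        ∑ g ∈ S, (Icc (g - W) (g + W)).indicator (fun _ => V g ^ p) t := by
      rw [Finset.sum_filter]
      apply Finset.sum_le_sum
      intro g _
      split_ifs with hg
      · obtain ⟨a1, a2⟩ := abs_le.mp hg
        rw [indicator_of_mem]
        constructor <;> linarith
      · exact indicator_nonneg (fun _ _ => hnn g) t
    have hs0 : 0 ≤ ∑ g ∈ S with |g - t| ≤ 6 * √(ll t), V g ^ p :=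
      Finset.sum_nonneg fun g _ => hnn g
    apply mul_le_mul
    · exact mul_le_mul_of_nonneg_left hltp hC.le
    · exact add_le_add hltp hsum
    · positivity
    · positivity
  have hIS : IntervalIntegrable (fun t => ∑ g ∈ S, (Icc (g - W) (g + W)).indicator
      (fun _ => V g ^ p) t) volume 37 T := by
    have h := IntervalIntegrable.sum S
      (f := fun g => (Icc (g - W) (g + W)).indicator (fun _ => V g ^ p))
      (μ := volume) (a := 37) (b := T) (fun g _ => hII g _ _ _)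
    have e : (∑ g ∈ S, (Icc (g - W) (g + W)).indicator (fun _ => V g ^ p)) =
        fun t => ∑ g ∈ S, (Icc (g - W) (g + W)).indicator (fun _ => V g ^ p) t := by
      funext t
      rw [Finset.sum_apply]
    rw [e] at h
    exact h
  have hint : ∫ t in (37 : ℝ)..T, ∑ g ∈ S, (Icc (g - W) (g + W)).indicator (fun _ => V g ^ p) t ≤
      2 * W * ∑ g ∈ S, V g ^ p := by
    rw [intervalIntegral.integral_finsetSum (fun g _ => hII g _ _ _), Finset.mul_sum]
    apply Finset.sum_le_sum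
    intro g _
    have := ind_int (a := 37) (b := T) (l := g - W) (r := g + W) (c := V g ^ p) hT (by linarith)
      (hnn g)
    linarith
  have hSg0 : 0 ≤ ∑ g ∈ S, V g ^ p := Finset.sum_nonneg fun g _ => hnn g
  have e1 : ll T ^ (2 * p) = ll T ^ p * ll T ^ p := by
    rw [← Real.rpow_add (by linarith)]
    ring_nf
  have e2 : ll T ^ (p + 1 / 2) = ll T ^ p * √(ll T) := by
    rw [Real.rpow_add (by linarith), Real.sqrt_eq_rpow]
  calc ∫ t in (37 : ℝ)..T, V t ^ p
      ≤ ∫ t in (37 : ℝ)..T, C * ll T ^ p * (ll T ^ p +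
          ∑ g ∈ S, (Icc (g - W) (g + W)).indicator (fun _ => V g ^ p) t) := by
        refine intervalIntegral.integral_mono_on hT (hcont.intervalIntegrable _ _) ?_ hpt
        exact (intervalIntegrable_const.add hIS).const_mul _
    _ = C * ll T ^ p * ((T - 37) * ll T ^ p +
          ∫ t in (37 : ℝ)..T, ∑ g ∈ S, (Icc (g - W) (g + W)).indicator (fun _ => V g ^ p) t) := by
        rw [intervalIntegral.integral_const_mul,
          intervalIntegral.integral_add intervalIntegrable_const hIS,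
          intervalIntegral.integral_const, smul_eq_mul]
    _ ≤ C * ll T ^ p * (T * ll T ^ p + 2 * W * ∑ g ∈ S, V g ^ p) := by
        apply mul_le_mul_of_nonneg_left _ (by positivity)
        apply add_le_add _ hint
        apply mul_le_mul_of_nonneg_right (by linarith) hlp0
    _ ≤ C * 12 * ll T ^ (2 * p) * T + C * 12 * ll T ^ (p + 1 / 2) * ∑ g ∈ S, V g ^ p := by
        rw [e1, e2, hW]
        have q1 : 0 ≤ C * (ll T ^ p * ll T ^ p) * T := by
          have : 0 ≤ T := by linarith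
          positivity
        nlinarith

end H429.MG
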