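import Pool.Agent.H429R4.MG.F5

/-!
Moments of the zeta function and the values at the Gram points: inequalities for all `T ≥ 2`.
-/

open Complex Filter Topology Set Metric MeasureTheory

namespace H429.MG

open H370.DL H429.GP

theorem ll_le_log {T : ℝ} (hT : 2 ≤ T) : ll T ≤ 4 * Real.log T := by
  unfold ll
  have h1 : Real.log (1 + T) ≤ Real.log (T ^ 2) := Real.log_le_log (by linarith) (by nlinarith)
  rw [Real.log_pow] at h1
  push_cast at h1
  have h2 : Real.log 2 ≤ Real.log T := Real.log_le_log (by norm_num) hT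
  have h3 := Real.log_two_gt_d9
  linarith

theorem main_a {p : ℝ} (hp : 0 < p) {ω : ℂ} (hω : ‖ω‖ = 1) : ∃ C : ℝ, 0 < C ∧ ∀ T : ℝ,
    2 ≤ T → ∀ S : Finset ℝ,
    (∀ g : ℝ, 0 ≤ g → g ≤ 2 * T → X1 ⟨1 / 2, g⟩ = ω ^ 2 →
      ((starRingEnd ℂ) ω * LL ⟨1 / 2, g⟩).re < 0 → g ∈ S) →
    ∫ t in (0 : ℝ)..T, V t ^ p ≤ C * (Real.log T ^ (2 * p) * T +
      Real.log T ^ (p + 1 / 2) * ∑ g ∈ S, V g ^ p) := by
  obtain ⟨C, hC, h⟩ := upper_int hp hω
  have hcont := continuous_Vp hp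
  have hnn : ∀ u : ℝ, 0 ≤ V u ^ p := fun u => Real.rpow_nonneg (V_nonneg u) p
  set K0 : ℝ := ∫ t in (0 : ℝ)..37, V t ^ p with hK0
  have hK00 : 0 ≤ K0 := intervalIntegral.integral_nonneg (by norm_num) fun u _ => hnn u
  have hlog2 : 0 < Real.log 2 := Real.log_pos (by norm_num)
  set m : ℝ := Real.log 2 ^ (2 * p) * 2 with hm
  have hm0 : 0 < m := by positivity
  refine ⟨K0 / m + C * 4 ^ (2 * p) + C * 4 ^ (p + 1 / 2), by positivity, ?_⟩
  intro T hT S hS
  have hlogT : Real.log 2 ≤ Real.log T := Real.log_le_log (by norm_num) hT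
  have hlogT0 : 0 < Real.log T := by linarith
  have hT0 : 0 ≤ T := by linarith
  have hSS : 0 ≤ ∑ g ∈ S, V g ^ p := Finset.sum_nonneg fun g _ => hnn g
  set A : ℝ := Real.log T ^ (2 * p) with hA
  set B : ℝ := Real.log T ^ (p + 1 / 2) with hB
  set Q : ℝ := ∑ g ∈ S, V g ^ p with hQ
  have hA0 : 0 ≤ A := Real.rpow_nonneg hlogT0.le _
  have hB0 : 0 ≤ B := Real.rpow_nonneg hlogT0.le _
  have hmA : m ≤ A * T := by
    rw [hm, hA]
    apply mul_le_mul (Real.rpow_le_rpow hlog2.le hlogT (by positivity)) hT (by norm_num) hA0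
  have hKm : K0 ≤ K0 / m * (A * T) := by
    calc K0 = K0 / m * m := by field_simp
      _ ≤ _ := by gcongr
  have hp1 : 0 < (4 : ℝ) ^ (2 * p) := by positivity
  have hp2 : 0 < (4 : ℝ) ^ (p + 1 / 2) := by positivity
  have hAT : 0 ≤ A * T := by positivity
  have hBQ : 0 ≤ B * Q := by positivity
  have hKm0 : 0 ≤ K0 / m := by positivity
  rcases lt_or_ge T 37 with h37 | h37
  · have h1 : ∫ t in (0 : ℝ)..T, V t ^ p ≤ K0 := by
      rw [hK0]
      apply intervalIntegral.integral_mono_interval le_rfl hT0 h37.le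
      · exact Filter.Eventually.of_forall fun u => hnn u
      · exact hcont.intervalIntegrable _ _
    refine (h1.trans hKm).trans ?_
    have q1 : 0 ≤ (C * 4 ^ (2 * p) + C * 4 ^ (p + 1 / 2)) * (A * T) := by positivity
    have q2 : 0 ≤ (K0 / m + C * 4 ^ (2 * p) + C * 4 ^ (p + 1 / 2)) * (B * Q) := by positivity
    linarith
  · have h1 : ∫ t in (0 : ℝ)..T, V t ^ p = K0 + ∫ t in (37 : ℝ)..T, V t ^ p := by
      rw [hK0]
      exact (intervalIntegral.integral_add_adjacent_intervals (hcont.intervalIntegrable _ _)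
        (hcont.intervalIntegrable _ _)).symm
    have h2 := h T h37 S hS
    have hll := ll_le_log hT
    have hll1 := one_le_ll hT0
    have e1 : ll T ^ (2 * p) ≤ 4 ^ (2 * p) * A := by
      rw [hA, ← Real.mul_rpow (by norm_num) hlogT0.le]
      exact Real.rpow_le_rpow (by linarith) hll (by positivity)
    have e2 : ll T ^ (p + 1 / 2) ≤ 4 ^ (p + 1 / 2) * B := by
      rw [hB, ← Real.mul_rpow (by norm_num) hlogT0.le]
      exact Real.rpow_le_rpow (by linarith) hll (by positivity)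
    have e3 : C * ll T ^ (2 * p) * T ≤ C * (4 ^ (2 * p) * A) * T := by gcongr
    have e4 : C * ll T ^ (p + 1 / 2) * Q ≤ C * (4 ^ (p + 1 / 2) * B) * Q := by gcongr
    rw [h1]
    have q1 : 0 ≤ (C * 4 ^ (p + 1 / 2)) * (A * T) := by positivity
    have q2 : 0 ≤ (K0 / m + C * 4 ^ (2 * p)) * (B * Q) := by positivity
    linarith

theorem main_b {p : ℝ} (hp : 0 < p) {ω : ℂ} (hω : ‖ω‖ = 1) : ∃ C : ℝ, 0 < C ∧ ∀ T : ℝ,
    2 ≤ T → ∀ S : Finset ℝ, (∀ g ∈ S, 0 ≤ g ∧ g ≤ T ∧ X1 ⟨1 / 2, g⟩ = ω ^ 2) →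
    ∑ g ∈ S, V g ^ p ≤ C * (Real.log T * T +
      Real.log T ^ 3 * ∫ t in (0 : ℝ)..(2 * T), V t ^ p) := by
  obtain ⟨C, hC, Y, hY, h⟩ := sum_gram hp
  have hnn : ∀ u : ℝ, 0 ≤ V u ^ p := fun u => Real.rpow_nonneg (V_nonneg u) p
  set G0 : Finset ℝ := (finite_gram hω 0 Y).toFinset with hG0
  set K1 : ℝ := ∑ g ∈ G0, V g ^ p with hK1
  have hK10 : 0 ≤ K1 := Finset.sum_nonneg fun g _ => hnn g
  have hlog2 : 0 < Real.log 2 := Real.log_pos (by norm_num)
  refine ⟨K1 / (Real.log 2 * 2) + C * 4 + C * 64, by positivity, ?_⟩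
  intro T hT S hS
  have hlogT : Real.log 2 ≤ Real.log T := Real.log_le_log (by norm_num) hT
  have hlogT0 : 0 < Real.log T := by linarith
  have hT0 : 0 ≤ T := by linarith
  set J : ℝ := ∫ t in (0 : ℝ)..(2 * T), V t ^ p with hJ
  have hJ0 : 0 ≤ J := intervalIntegral.integral_nonneg (by linarith) fun u _ => hnn u
  have hsplit : ∑ g ∈ S, V g ^ p = ∑ g ∈ S with g < Y, V g ^ p + ∑ g ∈ S with ¬ g < Y, V g ^ p :=
    (Finset.sum_filter_add_sum_filter_not S _ _).symm
  have hsmall : ∑ g ∈ S with g < Y, V g ^ p ≤ K1 := by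
    apply Finset.sum_le_sum_of_subset_of_nonneg
    · intro g hg
      rw [Finset.mem_filter] at hg
      obtain ⟨g1, g2, g3⟩ := hS g hg.1
      rw [hG0, Set.Finite.mem_toFinset]
      exact ⟨g1, hg.2.le, g3⟩
    · intro g _ _
      exact hnn g
  have hKT : K1 ≤ K1 / (Real.log 2 * 2) * (Real.log T * T) := by
    calc K1 = K1 / (Real.log 2 * 2) * (Real.log 2 * 2) := by field_simp
      _ ≤ _ := by gcongr
  have hlarge : ∑ g ∈ S with ¬ g < Y, V g ^ p ≤ C * 4 * (Real.log T * T) +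
      C * 64 * (Real.log T ^ 3 * J) := by
    rcases lt_or_ge T Y with hTY | hTY
    · have h0 : S.filter (fun g => ¬ g < Y) = ∅ := by
        apply Finset.filter_eq_empty_iff.mpr
        intro g hg hgY
        obtain ⟨-, g2, -⟩ := hS g hg
        exact hgY (by linarith)
      rw [h0, Finset.sum_empty]
      positivity
    · have h1 := h ω hω T hTY (S.filter (fun g => ¬ g < Y)) (by
        intro g hg
        rw [Finset.mem_filter] at hg
        obtain ⟨g1, g2, g3⟩ := hS g hg.1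
        exact ⟨not_lt.mp hg.2, g2, g3⟩)
      refine h1.trans ?_
      have hll := ll_le_log hT
      have hll1 := one_le_ll hT0
      have e1 : C * ll T * T ≤ C * (4 * Real.log T) * T := by gcongr
      have e2 : C * ll T ^ 3 * J ≤ C * (4 * Real.log T) ^ 3 * J := by gcongr
      refine (add_le_add e1 e2).trans (le_of_eq ?_)
      ring
  rw [hsplit]
  have q1 : 0 ≤ C * 64 * (Real.log T * T) := by positivity
  have q2 : 0 ≤ (K1 / (Real.log 2 * 2) + C * 4) * (Real.log T ^ 3 * J) := by positivity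
  linarith

end H429.MG
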