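import Pool.Agent.H306R2.Main
import Mathlib

/-!
A lower bound of the right order for every integer moment, from the master inequality.
-/

open Filter Finset

namespace H429.MG

theorem adm_simple (k : ℕ) (hk : 3 ≤ k) :
    Pool.Agent.H306R2.Adm k (n := k - 2) 1 (fun _ => k) (fun _ => 1 / (k : ℝ) ^ 2) := by
  have hk0 : (0 : ℝ) < k := by exact_mod_cast (by omega : 0 < k)
  have hk3 : (3 : ℝ) ≤ k := by exact_mod_cast hk
  have hcast : ((k - 2 : ℕ) : ℝ) = k - 2 := by
    rw [Nat.cast_sub (by omega)]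
    norm_num
  refine ⟨le_rfl, fun _ => by omega, ?_, fun _ => by positivity, fun _ => ?_, ?_, ?_⟩
  · rw [sum_const, card_univ, Fintype.card_fin, nsmul_eq_mul, hcast]
    push_cast
    field_simp
    ring
  · apply one_div_le_one_div_of_le hk0
    nlinarith
  · rw [sum_const, card_univ, Fintype.card_fin, nsmul_eq_mul, hcast, mul_one_div,
      div_le_one (by positivity)]
    nlinarith
  · push_cast
    linarith

theorem mB_pos {n : ℕ} {k j : ℕ} (hk : 1 ≤ k) {q : Fin n → ℕ} {β : Fin n → ℝ}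
    (hA : Pool.Agent.H306R2.Adm k j q β) :
    0 < Pool.Agent.H306R2.mB ((k : ℝ) / 2) j q β := by
  have hk0 : (0 : ℝ) < k := by exact_mod_cast hk
  have hj0 : (0 : ℝ) < j := by exact_mod_cast hA.hj
  set κ : ℝ := (k : ℝ) / 2 with hκ
  have hκ0 : 0 < κ := by positivity
  have hq0 : ∀ i, (0 : ℝ) < q i := fun i => by
    have := hA.hq i
    exact_mod_cast (by omega : 0 < q i)
  have hsum : ∑ i, β i * (κ ^ 2 / q i / (κ ^ 2 / q i + 1)) < 1 := by
    rcases isEmpty_or_nonempty (Fin n) with he | he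
    · rw [univ_eq_empty, sum_empty]
      norm_num
    · calc ∑ i, β i * (κ ^ 2 / q i / (κ ^ 2 / q i + 1)) < ∑ i, β i := by
            apply sum_lt_sum_of_nonempty univ_nonempty
            intro i _
            have h1 := hA.hβ i
            have h2 := hq0 i
            have h3 : κ ^ 2 / q i / (κ ^ 2 / q i + 1) < 1 := by
              rw [div_lt_one (by positivity)]
              linarith
            nlinarith
        _ ≤ 1 := hA.hβs
  have hprod : 0 < ∏ i, (β i) ^ (κ ^ 2 / q i) / Real.Gamma (κ ^ 2 / q i + 1) := by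
    apply prod_pos
    intro i _
    have h1 := hA.hβ i
    have h2 := hq0 i
    have h3 := Real.Gamma_pos_of_pos (by positivity : 0 < κ ^ 2 / q i + 1)
    positivity
  have h4 := Real.Gamma_pos_of_pos (by positivity : 0 < κ ^ 2 + 1)
  have h5 := Real.Gamma_pos_of_pos (by positivity : 0 < κ * j + 1)
  have h6 : 0 < 1 - ∑ i, β i * (κ ^ 2 / q i / (κ ^ 2 / q i + 1)) := by linarith
  unfold Pool.Agent.H306R2.mB
  positivity

theorem moment_lower (k : ℕ) (hk : 3 ≤ k) : ∃ c : ℝ, 0 < c ∧ ∀ᶠ T : ℝ in atTop,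
    c * (T * Real.log T ^ ((k : ℝ) ^ 2 / 4)) ≤
      ∫ t in (0:ℝ)..T, ‖riemannZeta (1 / 2 + t * Complex.I)‖ ^ k := by
  have hk0 : (0 : ℝ) < k := by exact_mod_cast (by omega : 0 < k)
  have hA := adm_simple k hk
  have h1 := mB_pos (by omega) hA
  have h2 : 0 < Pool.Agent.H306R2.aF ((k : ℝ) / 2) := Pool.Agent.H306R2.aF_pos (by positivity)
  set m : ℝ := Pool.Agent.H306R2.aF ((k : ℝ) / 2) * Pool.Agent.H306R2.mB ((k : ℝ) / 2) 1
    (fun _ : Fin (k - 2) => k) (fun _ => 1 / (k : ℝ) ^ 2) with hm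
  have hm0 : 0 < m := mul_pos h2 h1
  exact ⟨m / 2, by positivity, Pool.Agent.H306R2.master k 1 (by omega) _ _ hA (m / 2)
    (by linarith)⟩

end H429.MG
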